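import Mathlib

namespace Pool.Agent.W_MP_9f93d5_co

/-- One turn of the lazy cops: nobody moves, or exactly one cop moves along an edge. -/
def LazyMove {V : Type} (G : SimpleGraph V) {m : ℕ} (c c' : Fin m → V) : Prop :=
  c' = c ∨ ∃ i, G.Adj (c i) (c' i) ∧ ∀ j, j ≠ i → c' j = c j

/-- `CopsWin G c r`: with `m` cops at positions `c`, the robber at `r` and the cops to move, the
cops can force a capture.  Either some cop turn captures the robber, or some cop turn `c → c'` is
such that whatever the robber does (stay, or move along an edge) he enters a vertex occupied by a
cop or a position from which the cops can force a capture. -/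
inductive CopsWin {V : Type} (G : SimpleGraph V) {m : ℕ} : (Fin m → V) → V → Prop
  | capture (c c' : Fin m → V) (r : V) (hmove : LazyMove G c c') (i : Fin m) (hi : c' i = r) :
      CopsWin G c r
  | trap (c c' : Fin m → V) (r : V) (hmove : LazyMove G c c')
      (h : ∀ r', (r' = r ∨ G.Adj r r') → (∀ i, c' i ≠ r') → CopsWin G c' r') : CopsWin G c r

/-- `m` lazy cops have a winning strategy: they can choose initial positions such that, whatever
vertex the robber then chooses, they can force a capture (the cops move first). -/
def LazyCopsWin {V : Type} (G : SimpleGraph V) (m : ℕ) : Prop :=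
  ∃ c : Fin m → V, ∀ r : V, CopsWin G c r

/-- The lazy cop number. -/
noncomputable def lazyCopNumber {V : Type} (G : SimpleGraph V) : ℕ :=
  sInf {m | LazyCopsWin G m}

end Pool.Agent.W_MP_9f93d5_co
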