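import Pool.Agent.W_MP_9f93d5_co.Robber

namespace Pool.Agent.W_MP_9f93d5_co

open Finset Classical

variable (F : Type) [Field F]

variable {F} in
/-- incidence of a point and a line -/
def Inc (p l : F × F × F) : Prop :=
  p.2.1 + l.2.1 = p.1 * l.1 ∧ p.2.2 + l.2.2 = p.1 * l.2.1

/-- the bipartite graph `D(3,q)`; the boolean is the side -/
def graphD : SimpleGraph (Bool × F × F × F) where
  Adj v w := (v.1 = false ∧ w.1 = true ∧ Inc v.2 w.2) ∨ (v.1 = true ∧ w.1 = false ∧ Inc w.2 v.2)
  symm := ⟨by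
    rintro v w (⟨h1, h2, h3⟩ | ⟨h1, h2, h3⟩)
    · exact Or.inr ⟨h2, h1, h3⟩
    · exact Or.inl ⟨h2, h1, h3⟩⟩
  loopless := ⟨by
    rintro v (⟨h1, h2, _⟩ | ⟨h1, h2, _⟩)
    · rw [h1] at h2; exact Bool.noConfusion h2
    · rw [h1] at h2; exact Bool.noConfusion h2⟩

variable {F}

theorem adj_ft (p l : F × F × F) : (graphD F).Adj (false, p) (true, l) ↔ Inc p l := by
  simp [graphD]

theorem adj_tf (p l : F × F × F) : (graphD F).Adj (true, l) (false, p) ↔ Inc p l := by
  simp [graphD]

theorem not_adj_same (b : Bool) (p l : F × F × F) : ¬ (graphD F).Adj (b, p) (b, l) := by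
  cases b <;> simp [graphD]

/-- two lines through a point with the same first coordinate agree -/
theorem line_ext {p l l' : F × F × F} (h : Inc p l) (h' : Inc p l') (e : l.1 = l'.1) : l = l' := by
  obtain ⟨h1, h2⟩ := h
  obtain ⟨h1', h2'⟩ := h'
  have e2 : l.2.1 = l'.2.1 := by
    rw [← e] at h1'
    linear_combination h1 - h1'
  have e3 : l.2.2 = l'.2.2 := by
    rw [← e2] at h2'
    linear_combination h2 - h2'
  exact Prod.ext e (Prod.ext e2 e3)

/-- two points on a line with the same first coordinate agree -/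
theorem point_ext {p p' l : F × F × F} (h : Inc p l) (h' : Inc p' l) (e : p.1 = p'.1) :
    p = p' := by
  obtain ⟨h1, h2⟩ := h
  obtain ⟨h1', h2'⟩ := h'
  have e2 : p.2.1 = p'.2.1 := by
    rw [← e] at h1'
    linear_combination h1 - h1'
  have e3 : p.2.2 = p'.2.2 := by
    rw [← e] at h2'
    linear_combination h2 - h2'
  exact Prod.ext e (Prod.ext e2 e3)

/-- no four-cycles -/
theorem no_c4 {p p' l l' : F × F × F} (h1 : Inc p l) (h2 : Inc p' l) (h3 : Inc p l')
    (h4 : Inc p' l') (hp : p ≠ p') : l = l' := by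
  have hne : p.1 - p'.1 ≠ 0 := fun h => hp (point_ext h1 h2 (sub_eq_zero.mp h))
  apply line_ext h1 h3
  have : (p.1 - p'.1) * (l.1 - l'.1) = 0 := by
    obtain ⟨a1, _⟩ := h1
    obtain ⟨a2, _⟩ := h2
    obtain ⟨a3, _⟩ := h3
    obtain ⟨a4, _⟩ := h4
    linear_combination -a1 + a2 + a3 - a4
  rcases mul_eq_zero.mp this with h | h
  · exact absurd h hne
  · exact sub_eq_zero.mp h

/-- no six-cycles -/
theorem no_c6 {p1 p2 p3 l12 l13 l23 : F × F × F} (h1 : Inc p1 l12) (h2 : Inc p2 l12)
    (h3 : Inc p1 l13) (h4 : Inc p3 l13) (h5 : Inc p2 l23) (h6 : Inc p3 l23) (e12 : p1 ≠ p2)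
    (e13 : p1 ≠ p3) : l12 = l13 := by
  have n12 : p2.1 - p1.1 ≠ 0 := fun h => e12 (point_ext h1 h2 (sub_eq_zero.mp h).symm)
  have n13 : p3.1 - p1.1 ≠ 0 := fun h => e13 (point_ext h3 h4 (sub_eq_zero.mp h).symm)
  apply line_ext h1 h3
  have : (p3.1 - p1.1) * (p2.1 - p1.1) * (l13.1 - l12.1) = 0 := by
    obtain ⟨E1, E2⟩ := h1
    obtain ⟨E3, E4⟩ := h2
    obtain ⟨F1, F2⟩ := h3
    obtain ⟨F3, F4⟩ := h4
    obtain ⟨G1, G2⟩ := h5
    obtain ⟨G3, G4⟩ := h6
    have A : (p2.1 - p1.1) * l12.2.1 + (p3.1 - p2.1) * l23.2.1 - (p3.1 - p1.1) * l13.2.1 = 0 := by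
      linear_combination -E4 + E2 - G4 + G2 + F4 - F2
    have B : (p2.1 - p1.1) * l12.1 + (p3.1 - p2.1) * l23.1 - (p3.1 - p1.1) * l13.1 = 0 := by
      linear_combination -E3 + E1 - G3 + G1 + F3 - F1
    linear_combination A - (p2.1 - p1.1) * E3 - (p3.1 - p2.1) * G1 + (p3.1 - p1.1) * F1 -
      p2.1 * B + (p3.1 - p1.1) * (E3 - E1)
  rcases mul_eq_zero.mp this with h | h
  · rcases mul_eq_zero.mp h with h | h
    · exact absurd h n13
    · exact absurd h n12
  · exact (sub_eq_zero.mp h).symm

theorem goodGraph [Fintype F] : GoodGraph (graphD F) Prod.fst (Fintype.card F) where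
  bip := by
    rintro v w (⟨h1, h2, _⟩ | ⟨h1, h2, _⟩)
    · rw [h1, h2]; exact Bool.false_ne_true
    · rw [h1, h2]; exact Bool.false_ne_true.symm
  deg := by
    rintro ⟨b, p⟩
    cases b
    · refine ⟨univ.image fun x : F => (true, x, p.1 * x - p.2.1,
        p.1 * (p.1 * x - p.2.1) - p.2.2), ?_, ?_⟩
      · intro u hu
        rw [mem_image] at hu
        obtain ⟨x, _, rfl⟩ := hu
        rw [adj_ft]
        constructor
        · show p.2.1 + (p.1 * x - p.2.1) = p.1 * x
          ring
        · show p.2.2 + (p.1 * (p.1 * x - p.2.1) - p.2.2) = p.1 * (p.1 * x - p.2.1)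
          ring
      · rw [card_image_of_injective]
        · rfl
        · intro x y h
          simp only [Prod.mk.injEq] at h
          exact h.2.1
    · refine ⟨univ.image fun a : F => (false, a, a * p.1 - p.2.1, a * p.2.1 - p.2.2), ?_, ?_⟩
      · intro u hu
        rw [mem_image] at hu
        obtain ⟨x, _, rfl⟩ := hu
        rw [adj_tf]
        constructor
        · show (x * p.1 - p.2.1) + p.2.1 = x * p.1
          ring
        · show (x * p.2.1 - p.2.2) + p.2.2 = x * p.2.1
          ring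
      · rw [card_image_of_injective]
        · rfl
        · intro x y h
          simp only [Prod.mk.injEq] at h
          exact h.2.1
  c4 := by
    rintro ⟨b, v⟩ ⟨b', w⟩ ⟨s, x⟩ ⟨s', y⟩ hne h1 h2 h3 h4
    cases b <;> cases s <;> try exact absurd h1 (not_adj_same _ _ _)
    · cases b' <;> try exact absurd h2 (not_adj_same _ _ _)
      cases s' <;> try exact absurd h3 (not_adj_same _ _ _)
      rw [adj_ft] at h1 h2 h3 h4
      have : x = y := no_c4 h1 h2 h3 h4 (fun e => hne (by rw [e]))
      rw [this]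
    · cases b' <;> try exact absurd h2 (not_adj_same _ _ _)
      cases s' <;> try exact absurd h3 (not_adj_same _ _ _)
      rw [adj_tf] at h1 h2 h3 h4
      by_contra hxy
      have : v = w := no_c4 h1 h3 h2 h4 (fun e => hxy (by rw [e]))
      exact hne (by rw [this])
  c6 := by
    rintro ⟨b, v⟩ ⟨b1, w⟩ ⟨b2, w'⟩ ⟨s, u⟩ ⟨s1, u'⟩ ⟨s2, x⟩ e1 e2 e3 e4 e5 e6 h1 h2 h3 h4 h5 h6
    cases b
    · cases s <;> try exact absurd h1 (not_adj_same _ _ _)
      cases s1 <;> try exact absurd h2 (not_adj_same _ _ _)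
      cases b1 <;> try exact absurd h3 (not_adj_same _ _ _)
      cases b2 <;> try exact absurd h4 (not_adj_same _ _ _)
      cases s2 <;> try exact absurd h5 (not_adj_same _ _ _)
      rw [adj_ft] at h1 h2 h5 h6
      rw [adj_tf] at h3 h4
      have : u = u' := no_c6 (p1 := v) (p2 := w) (p3 := w') (l12 := u) (l13 := u') (l23 := x)
        h1 h3 h2 h4 h5 h6 (fun e => e1 (by rw [e])) (fun e => e2 (by rw [e]))
      exact e4 (by rw [this])
    · cases s <;> try exact absurd h1 (not_adj_same _ _ _)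
      cases s1 <;> try exact absurd h2 (not_adj_same _ _ _)
      cases b1 <;> try exact absurd h3 (not_adj_same _ _ _)
      cases b2 <;> try exact absurd h4 (not_adj_same _ _ _)
      cases s2 <;> try exact absurd h5 (not_adj_same _ _ _)
      rw [adj_tf] at h1 h2 h5 h6
      rw [adj_ft] at h3 h4
      have : v = w := no_c6 (p1 := u) (p2 := u') (p3 := x) (l12 := v) (l13 := w) (l23 := w')
        h1 h2 h3 h5 h4 h6 (fun e => e4 (by rw [e])) (fun e => e5 (by rw [e]))
      exact e1 (by rw [this])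

theorem reach_step (a b c α x : F) :
    (graphD F).Reachable (false, a, b, c) (false, a + α, b + α * x, c + α * (a * x - b)) := by
  have h1 : (graphD F).Adj (false, a, b, c) (true, x, a * x - b, a * (a * x - b) - c) := by
    rw [adj_ft]
    constructor
    · show b + (a * x - b) = a * x
      ring
    · show c + (a * (a * x - b) - c) = a * (a * x - b)
      ring
  have h2 : (graphD F).Adj (true, x, a * x - b, a * (a * x - b) - c)
      (false, a + α, b + α * x, c + α * (a * x - b)) := by
    rw [adj_tf]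
    constructor
    · show (b + α * x) + (a * x - b) = (a + α) * x
      ring
    · show (c + α * (a * x - b)) + (a * (a * x - b) - c) = (a + α) * (a * x - b)
      ring
  exact h1.reachable.trans h2.reachable

theorem reach_ne (h3 : ∃ α : F, α ≠ 0 ∧ α ≠ 1) (A B C : F) (hA : A ≠ 0) :
    (graphD F).Reachable (false, 0, 0, 0) (false, A, B, C) := by
  obtain ⟨e, he0, he1⟩ := h3
  set α := A * e with hα
  set β := A - α with hβ
  have hα0 : α ≠ 0 := mul_ne_zero hA he0
  have hβ0 : β ≠ 0 := by
    rw [hβ, hα, ← mul_one_sub]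
    exact mul_ne_zero hA (sub_ne_zero.mpr (Ne.symm he1))
  set x := (B - C / α) / A with hx
  set x' := x + C / (α * β) with hx'
  have s1 := reach_step (F := F) 0 0 0 α x
  have s2 := reach_step (F := F) (0 + α) (0 + α * x) (0 + α * (0 * x - 0)) β x'
  have t := s1.trans s2
  have e1 : 0 + α + β = A := by rw [hβ]; ring
  have e2 : 0 + α * x + β * x' = B := by
    have : 0 + α * x + β * x' = A * x + C / α := by
      rw [hx', hβ]
      have : (A - α) ≠ 0 := hβ0
      field_simp
      ring
    rw [this, hx]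
    field_simp
    ring
  have e3 : 0 + α * (0 * x - 0) + β * ((0 + α) * x' - (0 + α * x)) = C := by
    rw [hx']
    field_simp
    ring
  rw [e1, e2, e3] at t
  exact t

theorem reach_all (h3 : ∃ α : F, α ≠ 0 ∧ α ≠ 1) (v : Bool × F × F × F) :
    (graphD F).Reachable (false, 0, 0, 0) v := by
  have hp : ∀ A B C : F, (graphD F).Reachable (false, 0, 0, 0) (false, A, B, C) := by
    intro A B C
    by_cases hA : A = 0
    · subst hA
      have t1 := reach_ne h3 1 B (C - B) one_ne_zero
      have t2 := reach_step (F := F) 1 B (C - B) (-1) 0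
      have e1 : (1 : F) + -1 = 0 := by ring
      have e2 : B + -1 * 0 = B := by ring
      have e3 : C - B + -1 * (1 * 0 - B) = C := by ring
      rw [e1, e2, e3] at t2
      exact t1.trans t2
    · exact reach_ne h3 A B C hA
  obtain ⟨b, x, y, z⟩ := v
  cases b
  · exact hp x y z
  · have h : (graphD F).Adj (false, 0, -y, -z) (true, x, y, z) := by
      rw [adj_ft]
      constructor
      · show -y + y = 0 * x
        ring
      · show -z + z = 0 * y
        ring
    exact (hp 0 (-y) (-z)).trans h.reachable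

theorem graphD_connected (h3 : ∃ α : F, α ≠ 0 ∧ α ≠ 1) : (graphD F).Connected :=
  (SimpleGraph.connected_iff _).mpr
    ⟨fun v w => (reach_all h3 v).symm.trans (reach_all h3 w), ⟨(false, 0, 0, 0)⟩⟩

theorem start_pair [Fintype F] : ((false, (0 : F), (0 : F), (0 : F)) : Bool × F × F × F) ≠
      (true, 0, 1, 0) ∧
    ¬ (graphD F).Adj (true, 0, 1, 0) (false, 0, 0, 0) ∧
    ¬ D2 (graphD F) (true, (0 : F), (1 : F), (0 : F)) (false, 0, 0, 0) := by
  refine ⟨fun h => Bool.false_ne_true (congrArg Prod.fst h), ?_, ?_⟩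
  · rw [adj_tf]
    rintro ⟨h1, _⟩
    have : (0 : F) + 1 = 0 * 0 := h1
    simp at this
  · intro h
    have := (goodGraph (F := F)).D2_col h
    exact Bool.false_ne_true this

end Pool.Agent.W_MP_9f93d5_co
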