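import Pool.Agent.W_MP_9f93d5_co.Graph

namespace Pool.Agent.W_MP_9f93d5_co

/-- integer form of the condition when nobody moves -/
theorem num1 (d m y x E s t : ℤ) (hx : x + y = m) (hE : m + E = d ^ 2) (hmE : m ≤ E)
    (hs : s * (2 * d) ≤ 2 * x + E) (ht : t * (d - s) ≤ y) (ht0 : 0 ≤ t) (hy : 0 ≤ y)
    (hd : 0 < d) (hm : 0 ≤ m) : t * (2 * d) ≤ 2 * y + E := by
  by_contra hcon
  push Not at hcon
  have hW : 2 * y + E ≤ 2 * d * (d - s) := by nlinarith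
  have h1 : t * (2 * y + E) ≤ 2 * d * y := by
    calc t * (2 * y + E) ≤ t * (2 * d * (d - s)) := mul_le_mul_of_nonneg_left hW ht0
      _ = 2 * d * (t * (d - s)) := by ring
      _ ≤ 2 * d * y := mul_le_mul_of_nonneg_left ht (by linarith)
  have hWpos : 0 < 2 * y + E := by nlinarith
  have h2 : (2 * y + E) * (2 * y + E + 1) ≤ (2 * y + E) * (t * (2 * d)) :=
    mul_le_mul_of_nonneg_left (by linarith) hWpos.le
  have h3 : (2 * y + E) * (t * (2 * d)) ≤ 4 * d ^ 2 * y := by nlinarith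
  have h4 : 4 * d ^ 2 * y ≤ (2 * y + E) ^ 2 := by
    rw [← hE]
    nlinarith [sq_nonneg (2 * y - m)]
  nlinarith

/-- integer form of the condition when a cop enters the robber's side -/
theorem num2 (d m z x E s t : ℤ) (hx : x + z + 1 = m) (hE : m + E = d ^ 2)
    (hm2 : 2 * m ≤ (d - 1) ^ 2)
    (hs : s * (2 * d) ≤ 2 * x + E) (ht : t * (d - s - 1) ≤ z) (ht0 : 0 ≤ t) (hz : 0 ≤ z)
    (hd : 3 ≤ d) (hx0 : 0 ≤ x) : t * (2 * d) ≤ 2 * z + E := by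
  by_contra hcon
  push Not at hcon
  have hW : 2 * z + E + 2 - 2 * d ≤ 2 * d * (d - s - 1) := by nlinarith
  have h1 : t * (2 * z + E + 2 - 2 * d) ≤ 2 * d * z := by
    calc t * (2 * z + E + 2 - 2 * d) ≤ t * (2 * d * (d - s - 1)) :=
          mul_le_mul_of_nonneg_left hW ht0
      _ = 2 * d * (t * (d - s - 1)) := by ring
      _ ≤ 2 * d * z := mul_le_mul_of_nonneg_left ht (by linarith)
  have hWpos : 0 < 2 * z + E + 2 - 2 * d := by nlinarith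
  have h2 : (2 * z + E + 2 - 2 * d) * (2 * z + E + 1) ≤
      (2 * z + E + 2 - 2 * d) * (t * (2 * d)) :=
    mul_le_mul_of_nonneg_left (by linarith) hWpos.le
  have h3 : (2 * z + E + 2 - 2 * d) * (t * (2 * d)) ≤ 4 * d ^ 2 * z := by nlinarith
  obtain ⟨σ, hσ0, hσ⟩ : ∃ σ : ℤ, 0 ≤ σ ∧ 2 * m + σ = (d - 1) ^ 2 :=
    ⟨(d - 1) ^ 2 - 2 * m, by linarith, by ring⟩
  have hE2 : 2 * E = d ^ 2 + 2 * d - 1 + σ := by nlinarith
  have h4 : 4 * (2 * z + E + 2 - 2 * d) * (2 * z + E + 1) =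
      4 * (4 * d ^ 2 * z) + (4 * z - (2 * m + 2 * d - 3)) ^ 2 +
        (4 * (E + 1) * (E + 2 - 2 * d) - (2 * m + 2 * d - 3) ^ 2) := by
    rw [← hE]; ring
  have h5 : 4 * (E + 1) * (E + 2 - 2 * d) - (2 * m + 2 * d - 3) ^ 2 =
      4 * d ^ 2 + 4 * d - 1 + 4 * σ * d ^ 2 := by
    have e1 : 4 * (E + 1) * (E + 2 - 2 * d) = (2 * E + 2) * (2 * E + 4 - 4 * d) := by ring
    have e2 : 2 * m = (d - 1) ^ 2 - σ := by linarith
    rw [e1, hE2, e2]; ring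
  have h6 : 0 ≤ σ * d ^ 2 := by positivity
  nlinarith [sq_nonneg (4 * z - (2 * m + 2 * d - 3))]

/-- integer form of the condition when a cop leaves the robber's side -/
theorem num3 (d m y x E s t : ℤ) (hx : x + y = m) (hE : m + E = d ^ 2)
    (hm2 : 2 * m ≤ (d - 1) ^ 2)
    (hs : s * (2 * d) ≤ 2 * x + E) (ht : t * (d - s) ≤ y) (ht0 : 0 ≤ t) (hy : 0 ≤ y)
    (hd : 3 ≤ d) (hx0 : 0 ≤ x) : (t + 1) * (2 * d) ≤ 2 * (y + 1) + E := by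
  by_contra hcon
  push Not at hcon
  have hW : 2 * y + E ≤ 2 * d * (d - s) := by nlinarith
  have h1 : t * (2 * y + E) ≤ 2 * d * y := by
    calc t * (2 * y + E) ≤ t * (2 * d * (d - s)) := mul_le_mul_of_nonneg_left hW ht0
      _ = 2 * d * (t * (d - s)) := by ring
      _ ≤ 2 * d * y := mul_le_mul_of_nonneg_left ht (by linarith)
  have hWpos : 0 < 2 * y + E := by nlinarith
  have h2 : (2 * y + E) * (2 * y + E + 3 - 2 * d) ≤ (2 * y + E) * (t * (2 * d)) :=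
    mul_le_mul_of_nonneg_left (by linarith) hWpos.le
  have h3 : (2 * y + E) * (t * (2 * d)) ≤ 4 * d ^ 2 * y := by nlinarith
  obtain ⟨σ, hσ0, hσ⟩ : ∃ σ : ℤ, 0 ≤ σ ∧ 2 * m + σ = (d - 1) ^ 2 :=
    ⟨(d - 1) ^ 2 - 2 * m, by linarith, by ring⟩
  have hE2 : 2 * E = d ^ 2 + 2 * d - 1 + σ := by nlinarith
  have h4 : 4 * (2 * y + E) * (2 * y + E + 3 - 2 * d) =
      4 * (4 * d ^ 2 * y) + (4 * y - (2 * m + 2 * d - 3)) ^ 2 +
        (4 * E * (E + 3 - 2 * d) - (2 * m + 2 * d - 3) ^ 2) := by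
    rw [← hE]; ring
  have h5 : 4 * E * (E + 3 - 2 * d) - (2 * m + 2 * d - 3) ^ 2 =
      4 * d ^ 2 + 12 * d - 9 + 4 * σ * d ^ 2 := by
    have e1 : 4 * E * (E + 3 - 2 * d) = (2 * E) * (2 * E + 6 - 4 * d) := by ring
    have e2 : 2 * m = (d - 1) ^ 2 - σ := by linarith
    rw [e1, hE2, e2]; ring
  have h6 : 0 ≤ σ * d ^ 2 := by positivity
  nlinarith [sq_nonneg (4 * y - (2 * m + 2 * d - 3))]

theorem good_formula (d m : ℕ) (hd : 3 ≤ d) (hm : 2 * m ≤ (d - 1) ^ 2) :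
    ∃ S, Good d m S := by
  have hmd : m ≤ d ^ 2 := by
    have : (d - 1) ^ 2 ≤ d ^ 2 := Nat.pow_le_pow_left (by omega) 2
    omega
  obtain ⟨E, hE⟩ : ∃ E, m + E = d ^ 2 := ⟨d ^ 2 - m, by omega⟩
  have hmE : m ≤ E := by
    have : (d - 1) ^ 2 ≤ d ^ 2 := Nat.pow_le_pow_left (by omega) 2
    omega
  have hEz : (m : ℤ) + E = (d : ℤ) ^ 2 := by exact_mod_cast hE
  have hmz : 2 * (m : ℤ) ≤ ((d : ℤ) - 1) ^ 2 := by
    have h1 : ((d - 1 : ℕ) : ℤ) = (d : ℤ) - 1 := by push_cast [Nat.cast_sub (by omega : 1 ≤ d)]; ring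
    rw [← h1]
    exact_mod_cast hm
  have hdz : (3 : ℤ) ≤ d := by exact_mod_cast hd
  refine ⟨fun x => (2 * x + E) / (2 * d), ?_⟩
  intro x hx
  obtain ⟨y, hy⟩ : ∃ y, x + y = m := ⟨m - x, by omega⟩
  have hmx : m - x = y := by omega
  show (2 * x + E) / (2 * d) + 2 ≤ d ∧ (m - x) / (d - (2 * x + E) / (2 * d)) ≤
      (2 * (m - x) + E) / (2 * d) ∧ (x < m → (m - x - 1) / (d - (2 * x + E) / (2 * d) - 1) ≤
        (2 * (m - x - 1) + E) / (2 * d)) ∧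
      (1 ≤ x → (m - x) / (d - (2 * x + E) / (2 * d)) + 1 ≤ (2 * (m - x + 1) + E) / (2 * d))
  set s := (2 * x + E) / (2 * d) with hs
  have hs1 : s * (2 * d) ≤ 2 * x + E := Nat.div_mul_le_self _ _
  have hsd : s + 2 ≤ d := by
    have h1 : s < d - 1 := by
      rw [hs, Nat.div_lt_iff_lt_mul (by omega)]
      obtain ⟨e, rfl⟩ : ∃ e, d = e + 3 := ⟨d - 3, by omega⟩
      have h2 : (e + 3 - 1) = e + 2 := by omega
      rw [h2] at hm ⊢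
      nlinarith
    omega
  have hs1z : (s : ℤ) * (2 * d) ≤ 2 * x + E := by exact_mod_cast hs1
  have hyz : (x : ℤ) + y = m := by exact_mod_cast hy
  refine ⟨hsd, ?_, ?_, ?_⟩
  · rw [hmx]
    rw [Nat.le_div_iff_mul_le (by omega)]
    set t := y / (d - s) with ht
    have ht1 : t * (d - s) ≤ y := Nat.div_mul_le_self _ _
    have ht1z : (t : ℤ) * ((d : ℤ) - s) ≤ y := by
      have : ((d - s : ℕ) : ℤ) = (d : ℤ) - s := by rw [Nat.cast_sub (by omega)]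
      rw [← this]; exact_mod_cast ht1
    have := num1 d m y x E s t hyz hEz (by exact_mod_cast hmE) hs1z ht1z (by positivity)
      (by positivity) (by linarith) (by positivity)
    exact_mod_cast this
  · intro hlt
    rw [hmx]
    obtain ⟨z, hz⟩ : ∃ z, y = z + 1 := ⟨y - 1, by omega⟩
    have hz1 : y - 1 = z := by omega
    rw [hz1, Nat.le_div_iff_mul_le (by omega)]
    set t := z / (d - s - 1) with ht
    have ht1 : t * (d - s - 1) ≤ z := Nat.div_mul_le_self _ _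
    have ht1z : (t : ℤ) * ((d : ℤ) - s - 1) ≤ z := by
      have : ((d - s - 1 : ℕ) : ℤ) = (d : ℤ) - s - 1 := by
        rw [Nat.cast_sub (by omega), Nat.cast_sub (by omega)]; simp
      rw [← this]; exact_mod_cast ht1
    have hxz : (x : ℤ) + z + 1 = m := by
      have : x + z + 1 = m := by omega
      exact_mod_cast this
    have := num2 d m z x E s t hxz hEz hmz hs1z ht1z (by positivity)
      (by positivity) hdz (by positivity)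
    exact_mod_cast this
  · intro hx1
    rw [hmx, Nat.le_div_iff_mul_le (by omega)]
    set t := y / (d - s) with ht
    have ht1 : t * (d - s) ≤ y := Nat.div_mul_le_self _ _
    have ht1z : (t : ℤ) * ((d : ℤ) - s) ≤ y := by
      have : ((d - s : ℕ) : ℤ) = (d : ℤ) - s := by rw [Nat.cast_sub (by omega)]
      rw [← this]; exact_mod_cast ht1
    have := num3 d m y x E s t hyz hEz hmz hs1z ht1z (by positivity)
      (by positivity) hdz (by positivity)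
    exact_mod_cast this

/-- strategy tables for `d = 11` and `d = 13` -/
def tableFun (l : List ℕ) (x : ℕ) : ℕ := l.getD x 0

theorem good_11_51 : Good 11 51 (tableFun
    [0, 1, 1, 1, 1, 1, 1, 2, 2, 2, 2, 2, 2, 3, 3, 3, 3, 3, 3, 4, 4, 4, 4, 4, 4, 4, 4, 4, 4, 5, 5, 5, 5, 5, 5, 5, 5, 5, 5, 5, 5, 5, 5, 5, 5, 5, 5, 5, 5, 5, 5, 6]) := by
  unfold Good
  decide

theorem good_11_52 : Good 11 52 (tableFun
    [0, 1, 1, 1, 1, 1, 1, 2, 2, 2, 2, 2, 2, 3, 3, 3, 3, 3, 3, 4, 4, 4, 4, 4, 4, 4, 4, 4, 4, 5, 5, 5, 5, 5, 5, 5, 5, 5, 5, 5, 5, 5, 5, 5, 5, 5, 6, 5, 5, 5, 5, 6, 6]) := by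
  unfold Good
  decide

theorem good_11_53 : Good 11 53 (tableFun
    [0, 1, 1, 1, 1, 1, 1, 2, 2, 2, 2, 2, 2, 3, 3, 3, 3, 3, 3, 4, 4, 4, 4, 4, 4, 5, 4, 5, 4, 5, 5, 5, 5, 5, 5, 5, 5, 5, 5, 5, 5, 6, 5, 5, 5, 5, 6, 6, 5, 5, 5, 6, 6, 6]) := by
  unfold Good
  decide

theorem good_11_54 : Good 11 54 (tableFun
    [0, 1, 1, 1, 1, 1, 1, 2, 2, 2, 2, 2, 3, 3, 3, 3, 3, 4, 3, 4, 4, 4, 4, 4, 4, 5, 5, 5, 5, 5, 5, 5, 5, 5, 5, 5, 6, 5, 6, 5, 5, 6, 6, 6, 5, 5, 6, 6, 6, 5, 5, 6, 6, 6, 6]) := by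
  unfold Good
  decide

theorem good_11_55 : Good 11 55 (tableFun
    [0, 1, 1, 1, 1, 1, 1, 2, 2, 2, 2, 2, 3, 3, 3, 3, 4, 4, 4, 4, 4, 5, 4, 5, 4, 5, 5, 5, 5, 5, 5, 6, 5, 6, 5, 6, 6, 6, 6, 6, 6, 6, 6, 6, 6, 5, 6, 6, 6, 6, 5, 6, 6, 6, 6, 6]) := by
  unfold Good
  decide

theorem good_13_73 : Good 13 73 (tableFun
    [0, 1, 1, 1, 1, 1, 1, 1, 2, 2, 2, 2, 2, 2, 2, 3, 3, 3, 3, 3, 3, 3, 4, 4, 4, 4, 4, 4, 4, 4, 4, 5, 4, 5, 5, 5, 5, 5, 5, 5, 5, 6, 5, 6, 5, 5, 6, 6, 6, 6, 6, 6, 6, 6, 6, 6, 6, 6, 6, 6, 6, 6, 6, 6, 6, 6, 6, 6, 6, 6, 6, 6, 6, 7]) := by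
  unfold Good
  decide

theorem good_13_74 : Good 13 74 (tableFun
    [0, 1, 1, 1, 1, 1, 1, 1, 2, 2, 2, 2, 2, 2, 2, 3, 3, 3, 3, 3, 3, 3, 4, 4, 4, 4, 4, 4, 4, 5, 5, 5, 5, 5, 5, 5, 5, 5, 5, 5, 5, 6, 6, 6, 6, 6, 6, 6, 6, 6, 6, 6, 6, 6, 6, 6, 6, 6, 6, 6, 6, 6, 6, 6, 6, 6, 6, 7, 6, 6, 6, 6, 6, 7, 7]) := by
  unfold Good
  decide

theorem good_13_75 : Good 13 75 (tableFun
    [0, 1, 1, 1, 1, 1, 1, 1, 2, 2, 2, 2, 2, 2, 2, 3, 3, 3, 3, 3, 3, 3, 4, 4, 4, 4, 4, 4, 4, 5, 5, 5, 5, 5, 5, 5, 5, 5, 5, 5, 5, 6, 6, 6, 6, 6, 6, 6, 6, 6, 6, 6, 6, 6, 6, 6, 6, 6, 6, 6, 6, 7, 6, 6, 6, 6, 6, 7, 7, 6, 6, 6, 6, 7, 7, 7]) := by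
  unfold Good
  decide

theorem good_13_76 : Good 13 76 (tableFun
    [0, 1, 1, 1, 1, 1, 1, 1, 2, 2, 2, 2, 2, 2, 2, 3, 3, 3, 3, 3, 4, 3, 4, 4, 4, 4, 4, 4, 4, 5, 5, 5, 5, 5, 5, 5, 6, 6, 6, 6, 6, 6, 6, 6, 6, 6, 6, 6, 6, 6, 6, 6, 6, 6, 6, 7, 6, 7, 6, 6, 6, 7, 7, 6, 6, 6, 6, 7, 7, 7, 6, 6, 6, 7, 7, 7, 7]) := by
  unfold Good
  decide

theorem good_13_77 : Good 13 77 (tableFun
    [0, 1, 1, 1, 1, 1, 1, 1, 2, 2, 2, 2, 2, 2, 2, 3, 3, 3, 3, 3, 4, 4, 4, 4, 4, 5, 4, 5, 4, 5, 5, 5, 5, 5, 5, 5, 6, 6, 6, 6, 6, 6, 6, 6, 6, 6, 6, 6, 6, 7, 6, 7, 6, 7, 6, 7, 7, 7, 7, 6, 6, 7, 7, 7, 6, 6, 6, 7, 7, 7, 7, 6, 6, 7, 7, 7, 7, 7]) := by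
  unfold Good
  decide

theorem good_13_78 : Good 13 78 (tableFun
    [0, 1, 1, 1, 1, 1, 1, 1, 2, 2, 2, 2, 2, 2, 2, 3, 3, 3, 3, 3, 4, 4, 4, 4, 4, 5, 5, 5, 5, 5, 6, 5, 6, 5, 6, 5, 6, 6, 6, 6, 6, 6, 6, 7, 6, 7, 6, 7, 6, 7, 7, 7, 7, 7, 7, 7, 7, 7, 7, 7, 6, 7, 7, 7, 7, 6, 6, 7, 7, 7, 7, 7, 6, 7, 7, 7, 7, 7, 7]) := by
  unfold Good
  decide

theorem good_11 (m : ℕ) (hm : m ≤ 55) : ∃ S, Good 11 m S := by
  by_cases h : m ≤ 50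
  · exact good_formula 11 m (by norm_num) (by norm_num; omega)
  · have : m = 51 ∨ m = 52 ∨ m = 53 ∨ m = 54 ∨ m = 55 := by omega
    rcases this with rfl | rfl | rfl | rfl | rfl
    · exact ⟨_, good_11_51⟩
    · exact ⟨_, good_11_52⟩
    · exact ⟨_, good_11_53⟩
    · exact ⟨_, good_11_54⟩
    · exact ⟨_, good_11_55⟩

theorem good_13 (m : ℕ) (hm : m ≤ 78) : ∃ S, Good 13 m S := by
  by_cases h : m ≤ 72
  · exact good_formula 13 m (by norm_num) (by norm_num; omega)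
  · have : m = 73 ∨ m = 74 ∨ m = 75 ∨ m = 76 ∨ m = 77 ∨ m = 78 := by omega
    rcases this with rfl | rfl | rfl | rfl | rfl | rfl
    · exact ⟨_, good_13_73⟩
    · exact ⟨_, good_13_74⟩
    · exact ⟨_, good_13_75⟩
    · exact ⟨_, good_13_76⟩
    · exact ⟨_, good_13_77⟩
    · exact ⟨_, good_13_78⟩

end Pool.Agent.W_MP_9f93d5_co
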