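import Pool.Agent.W_MP_9f93d5_co.Defs

namespace Pool.Agent.W_MP_9f93d5_co

open Finset Classical

variable {V : Type}

/-- bipartite graph with minimum degree at least `d` and without cycles of length 4 or 6 -/
structure GoodGraph (G : SimpleGraph V) (col : V → Bool) (d : ℕ) : Prop where
  bip : ∀ v w, G.Adj v w → col v ≠ col w
  deg : ∀ v, ∃ N : Finset V, (∀ u ∈ N, G.Adj v u) ∧ N.card = d
  c4 : ∀ v w x y, v ≠ w → G.Adj v x → G.Adj w x → G.Adj v y → G.Adj w y → x = y
  c6 : ∀ v w w' u u' x, v ≠ w → v ≠ w' → w ≠ w' → u ≠ u' → u ≠ x → u' ≠ x →
    G.Adj v u → G.Adj v u' → G.Adj u w → G.Adj u' w' → G.Adj w x → G.Adj w' x → False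

/-- distance exactly two -/
def D2 (G : SimpleGraph V) (u x : V) : Prop := u ≠ x ∧ ∃ w, G.Adj u w ∧ G.Adj w x

theorem GoodGraph.D2_col {G : SimpleGraph V} {col : V → Bool} {d : ℕ} (hG : GoodGraph G col d)
    {u x : V} (h : D2 G u x) : col x = col u := by
  obtain ⟨_, w, h1, h2⟩ := h
  have e1 := hG.bip _ _ h1
  have e2 := hG.bip _ _ h2
  revert e1 e2
  cases col u <;> cases col w <;> cases col x <;> simp

theorem GoodGraph.D2_uniq {G : SimpleGraph V} {col : V → Bool} {d : ℕ} (hG : GoodGraph G col d)
    {v x u u' : V} (hvx : ¬ G.Adj v x) (hu : G.Adj v u) (hu' : G.Adj v u') (h : D2 G u x)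
    (h' : D2 G u' x) : u = u' := by
  by_contra hne
  obtain ⟨hux, w, h1, h2⟩ := h
  obtain ⟨hux', w', h1', h2'⟩ := h'
  have hwv : v ≠ w := fun e => hvx (e ▸ h2)
  have hwv' : v ≠ w' := fun e => hvx (e ▸ h2')
  by_cases hww : w = w'
  · subst hww
    exact hne (hG.c4 v w u u' hwv hu h1.symm hu' h1'.symm)
  · exact hG.c6 v w w' u u' x hwv hwv' hww hne hux hux' hu hu' h1 h1' h2 h2'

/-- number of cops at distance two from `v` -/
noncomputable def cnt (G : SimpleGraph V) {m : ℕ} (c : Fin m → V) (v : V) : ℕ :=
  (univ.filter fun i => D2 G v (c i)).card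

/-- number of cops of the same colour as `v` -/
noncomputable def same (col : V → Bool) {m : ℕ} (c : Fin m → V) (v : V) : ℕ :=
  (univ.filter fun i => col (c i) = col v).card

/-- number of cops adjacent to `v` -/
noncomputable def adjc (G : SimpleGraph V) {m : ℕ} (c : Fin m → V) (v : V) : ℕ :=
  (univ.filter fun i => G.Adj v (c i)).card

theorem same_add {col : V → Bool} {m : ℕ} (c : Fin m → V) (v : V) :
    same col c v + (univ.filter fun i => col (c i) ≠ col v).card = m := by
  unfold same
  rw [Finset.card_filter_add_card_filter_not]
  simp

theorem same_adj {G : SimpleGraph V} {col : V → Bool} {d : ℕ} (hG : GoodGraph G col d) {m : ℕ}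
    (c : Fin m → V) {v u : V} (h : G.Adj v u) : same col c u = m - same col c v := by
  have h1 := same_add (col := col) c v
  have h2 : same col c u = (univ.filter fun i => col (c i) ≠ col v).card := by
    unfold same
    congr 1
    ext i
    simp only [mem_filter, mem_univ, true_and]
    have e1 := hG.bip _ _ h
    revert e1
    cases col v <;> cases col u <;> cases col (c i) <;> simp
  omega

theorem same_le (col : V → Bool) {m : ℕ} (c : Fin m → V) (v : V) : same col c v ≤ m := by
  have h1 := same_add (col := col) c v
  omega

/-- The robber's move. -/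
theorem robber_move {G : SimpleGraph V} {col : V → Bool} {d : ℕ} (hG : GoodGraph G col d) {m : ℕ}
    (c : Fin m → V) (v : V) (hv : ∀ i, c i ≠ v) (hd : adjc G c v + cnt G c v < d) :
    ∃ u, G.Adj v u ∧ (∀ i, c i ≠ u ∧ ¬ G.Adj u (c i)) ∧
      cnt G c u ≤ (m - same col c v - adjc G c v) / (d - (adjc G c v + cnt G c v)) +
        adjc G c v := by
  obtain ⟨N, hN, hNd⟩ := hG.deg v
  -- blocked neighbours
  set Bl : Finset V := N.filter fun u => ∃ i, c i = u ∨ G.Adj u (c i) with hBl
  have hBlcard : Bl.card ≤ adjc G c v + cnt G c v := by
    -- choose for each index in B the common neighbour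
    have hcn : ∀ i : Fin m, ∃ w : V, D2 G v (c i) → G.Adj v w ∧ G.Adj w (c i) := by
      intro i
      by_cases h : D2 G v (c i)
      · obtain ⟨_, w, h1, h2⟩ := h
        exact ⟨w, fun _ => ⟨h1, h2⟩⟩
      · exact ⟨v, fun h' => absurd h' h⟩
    choose f hf using hcn
    have hsub : Bl ⊆ (univ.filter fun i => G.Adj v (c i)).image c ∪
        (univ.filter fun i => D2 G v (c i)).image f := by
      intro u hu
      rw [hBl, mem_filter] at hu
      obtain ⟨huN, i, hi⟩ := hu
      rw [mem_union, mem_image, mem_image]
      rcases hi with hi | hi
      · left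
        exact ⟨i, by rw [mem_filter]; exact ⟨mem_univ _, by rw [hi]; exact hN u huN⟩, hi⟩
      · right
        have hD : D2 G v (c i) := ⟨(hv i).symm, u, hN u huN, hi⟩
        refine ⟨i, by rw [mem_filter]; exact ⟨mem_univ _, hD⟩, ?_⟩
        obtain ⟨h1, h2⟩ := hf i hD
        exact hG.c4 v (c i) (f i) u (hv i).symm h1 h2.symm (hN u huN) hi.symm
    calc Bl.card ≤ _ := card_le_card hsub
      _ ≤ _ := card_union_le _ _
      _ ≤ adjc G c v + cnt G c v := Nat.add_le_add card_image_le card_image_le
  set U : Finset V := N \ Bl with hU
  have hUcard : d - (adjc G c v + cnt G c v) ≤ U.card := by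
    have hBN : Bl ⊆ N := filter_subset _ _
    rw [hU, card_sdiff_of_subset hBN, hNd]
    omega
  set C : V → Finset (Fin m) := fun u => univ.filter fun i => D2 G u (c i) ∧ ¬ G.Adj v (c i)
    with hC
  have hdisj : ∀ u ∈ U, ∀ u' ∈ U, u ≠ u' → Disjoint (C u) (C u') := by
    intro u hu u' hu' hne
    rw [Finset.disjoint_left]
    intro i hi hi'
    simp only [hC, mem_filter, mem_univ, true_and] at hi hi'
    have hu1 := hN u (mem_sdiff.mp hu).1
    have hu1' := hN u' (mem_sdiff.mp hu').1
    exact hne (hG.D2_uniq hi.2 hu1 hu1' hi.1 hi'.1)
  have hsum : ∑ u ∈ U, (C u).card ≤ m - same col c v - adjc G c v := by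
    rw [← card_biUnion hdisj]
    have hs : (U.biUnion C) ⊆
        (univ.filter fun i => col (c i) ≠ col v) \ (univ.filter fun i => G.Adj v (c i)) := by
      intro i hi
      rw [mem_biUnion] at hi
      obtain ⟨u, hu, hi⟩ := hi
      simp only [hC, mem_filter, mem_univ, true_and] at hi
      have hu1 := hN u (mem_sdiff.mp hu).1
      simp only [mem_sdiff, mem_filter, mem_univ, true_and]
      refine ⟨?_, hi.2⟩
      rw [hG.D2_col hi.1]
      exact (hG.bip _ _ hu1).symm
    refine (card_le_card hs).trans ?_
    rw [card_sdiff_of_subset]
    · have := same_add (col := col) c v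
      unfold adjc
      omega
    · intro i hi
      simp only [mem_filter, mem_univ, true_and] at hi ⊢
      exact (hG.bip _ _ hi).symm
  set t := (m - same col c v - adjc G c v) / (d - (adjc G c v + cnt G c v)) with ht
  have hex : ∃ u ∈ U, (C u).card ≤ t := by
    by_contra hcon
    push Not at hcon
    have h1 : U.card * (t + 1) ≤ ∑ u ∈ U, (C u).card := by
      rw [← smul_eq_mul]
      exact Finset.card_nsmul_le_sum U _ _ (fun u hu => hcon u hu)
    have h2 : (d - (adjc G c v + cnt G c v)) * (t + 1) ≤ U.card * (t + 1) :=
      Nat.mul_le_mul_right _ hUcard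
    have h3 : m - same col c v - adjc G c v < (d - (adjc G c v + cnt G c v)) * (t + 1) := by
      rw [ht]
      exact Nat.lt_mul_div_succ _ (by omega)
    omega
  obtain ⟨u, huU, hut⟩ := hex
  have huN := (mem_sdiff.mp huU).1
  have huB := (mem_sdiff.mp huU).2
  refine ⟨u, hN u huN, ?_, ?_⟩
  · intro i
    have : ¬ ∃ i, c i = u ∨ G.Adj u (c i) := by
      intro h
      exact huB (by rw [hBl, mem_filter]; exact ⟨huN, h⟩)
    push Not at this
    exact this i
  · have hsub : (univ.filter fun i => D2 G u (c i)) ⊆
        C u ∪ (univ.filter fun i => G.Adj v (c i)) := by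
      intro i hi
      simp only [hC, mem_union, mem_filter, mem_univ, true_and] at hi ⊢
      by_cases h : G.Adj v (c i)
      · exact Or.inr h
      · exact Or.inl ⟨hi, h⟩
    calc cnt G c u ≤ _ := card_le_card hsub
      _ ≤ _ := card_union_le _ _
      _ ≤ t + adjc G c v := Nat.add_le_add_right hut _

/-- numerical condition for the robber's strategy against `m` cops -/
def Good (d m : ℕ) (S : ℕ → ℕ) : Prop :=
  ∀ x, x ≤ m → S x + 2 ≤ d ∧ (m - x) / (d - S x) ≤ S (m - x) ∧
    (x < m → (m - x - 1) / (d - S x - 1) ≤ S (m - x - 1)) ∧
    (1 ≤ x → (m - x) / (d - S x) + 1 ≤ S (m - x + 1))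

/-- safe positions, cops to move -/
def Safe (G : SimpleGraph V) (col : V → Bool) (S : ℕ → ℕ) {m : ℕ} (c : Fin m → V) (v : V) : Prop :=
  (∀ i, c i ≠ v ∧ ¬ G.Adj v (c i)) ∧ cnt G c v ≤ S (same col c v)

theorem safe_step {G : SimpleGraph V} {col : V → Bool} {d : ℕ} (hG : GoodGraph G col d) {m : ℕ}
    {S : ℕ → ℕ} (hS : Good d m S) (c c' : Fin m → V) (v : V) (hsafe : Safe G col S c v)
    (hmove : LazyMove G c c') :
    (∀ i, c' i ≠ v) ∧ ∃ u, G.Adj v u ∧ (∀ i, c' i ≠ u) ∧ Safe G col S c' u := by
  obtain ⟨hc, hcnt⟩ := hsafe
  have hsm := same_le col c v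
  obtain ⟨g0, g1, g2, g3⟩ := hS _ hsm
  rcases hmove with rfl | ⟨j, hj, hother⟩
  · -- nobody moves
    refine ⟨fun i => (hc i).1, ?_⟩
    have ha : adjc G c' v = 0 := by
      unfold adjc
      rw [card_eq_zero, filter_eq_empty_iff]
      intro i _
      exact (hc i).2
    obtain ⟨u, hu, hu1, hu2⟩ := robber_move (col := col) hG c' v (fun i => (hc i).1)
      (by rw [ha]; omega)
    refine ⟨u, hu, fun i => (hu1 i).1, hu1, ?_⟩
    rw [same_adj hG c' hu]
    rw [ha] at hu2
    simp only [Nat.sub_zero, zero_add, add_zero] at hu2
    refine hu2.trans (le_trans ?_ g1)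
    exact Nat.div_le_div_left (by omega) (by omega)
  · have hjv : c' j ≠ v := by
      intro h
      rw [h] at hj
      exact (hc j).2 hj.symm
    have hne : ∀ i, c' i ≠ v := by
      intro i
      by_cases h : i = j
      · rw [h]; exact hjv
      · rw [hother i h]; exact (hc i).1
    refine ⟨hne, ?_⟩
    by_cases hcol : col (c j) = col v
    · -- the moving cop leaves the colour class of the robber
      have hcol' : col (c' j) ≠ col v := by
        have := hG.bip _ _ hj
        rw [hcol] at this
        exact this.symm
      have hsame : same col c' v + 1 = same col c v := by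
        unfold same
        have : (univ.filter fun i => col (c i) = col v) =
            insert j (univ.filter fun i => col (c' i) = col v) := by
          ext i
          simp only [mem_insert, mem_filter, mem_univ, true_and]
          by_cases h : i = j
          · subst h; simp [hcol]
          · rw [hother i h]; simp [h]
        rw [this, card_insert_of_notMem]
        simp only [mem_filter, mem_univ, true_and]
        exact hcol'
      have hD2j : ¬ D2 G v (c' j) := fun h => hcol' (hG.D2_col h)
      by_cases hadj : G.Adj v (c' j)
      · have ha : adjc G c' v = 1 := by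
          unfold adjc
          rw [card_eq_one]
          refine ⟨j, ?_⟩
          ext i
          simp only [mem_filter, mem_univ, true_and, mem_singleton]
          constructor
          · intro h
            by_contra hij
            rw [hother i hij] at h
            exact (hc i).2 h
          · intro h; rw [h]; exact hadj
        have hb : cnt G c' v + 1 ≤ cnt G c v := by
          unfold cnt
          have hj2 : D2 G v (c j) := ⟨(hc j).1.symm, c' j, hadj, hj.symm⟩
          have : insert j (univ.filter fun i => D2 G v (c' i)) ⊆
              (univ.filter fun i => D2 G v (c i)) := by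
            intro i
            simp only [mem_insert, mem_filter, mem_univ, true_and]
            rintro (h | h)
            · rw [h]; exact hj2
            · by_cases hij : i = j
              · rw [hij] at h; exact absurd h hD2j
              · rw [hother i hij] at h; exact h
          have h2 := card_le_card this
          rw [card_insert_of_notMem] at h2
          · exact h2
          · simp only [mem_filter, mem_univ, true_and]; exact hD2j
        obtain ⟨u, hu, hu1, hu2⟩ := robber_move (col := col) hG c' v hne (by rw [ha]; omega)
        refine ⟨u, hu, fun i => (hu1 i).1, hu1, ?_⟩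
        rw [same_adj hG c' hu]
        have g3' := g3 (by omega)
        have e1 : m - same col c' v = m - same col c v + 1 := by omega
        rw [e1] at hu2 ⊢
        rw [ha] at hu2
        refine hu2.trans (le_trans ?_ g3')
        refine Nat.add_le_add_right ?_ 1
        rw [Nat.add_sub_cancel]
        exact Nat.div_le_div_left (by omega) (by omega)
      · have ha : adjc G c' v = 0 := by
          unfold adjc
          rw [card_eq_zero, filter_eq_empty_iff]
          intro i _
          by_cases hij : i = j
          · rw [hij]; exact hadj
          · rw [hother i hij]; exact (hc i).2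
        have hb : cnt G c' v ≤ cnt G c v := by
          unfold cnt
          apply card_le_card
          intro i
          simp only [mem_filter, mem_univ, true_and]
          intro h
          by_cases hij : i = j
          · rw [hij] at h; exact absurd h hD2j
          · rw [hother i hij] at h; exact h
        obtain ⟨u, hu, hu1, hu2⟩ := robber_move (col := col) hG c' v hne (by rw [ha]; omega)
        refine ⟨u, hu, fun i => (hu1 i).1, hu1, ?_⟩
        rw [same_adj hG c' hu]
        have g3' := g3 (by omega)
        have e1 : m - same col c' v = m - same col c v + 1 := by omega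
        rw [e1] at hu2 ⊢
        rw [ha] at hu2
        simp only [Nat.sub_zero, zero_add, add_zero] at hu2
        refine hu2.trans (le_trans ?_ g3')
        have h1 : (m - same col c v + 1) / (d - cnt G c' v) ≤
            (m - same col c v + 1) / (d - S (same col c v)) :=
          Nat.div_le_div_left (by omega) (by omega)
        refine h1.trans ?_
        have h2 : m - same col c v + 1 ≤ m - same col c v + (d - S (same col c v)) := by omega
        calc (m - same col c v + 1) / (d - S (same col c v))
            ≤ (m - same col c v + (d - S (same col c v))) / (d - S (same col c v)) :=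
              Nat.div_le_div_right h2
          _ = (m - same col c v) / (d - S (same col c v)) + 1 :=
              Nat.add_div_right _ (by omega)
    · -- the moving cop enters the colour class of the robber
      have hcol' : col (c' j) = col v := by
        have := hG.bip _ _ hj
        revert this hcol
        cases col (c j) <;> cases col (c' j) <;> cases col v <;> simp
      have hsame : same col c' v = same col c v + 1 := by
        unfold same
        have : (univ.filter fun i => col (c' i) = col v) =
            insert j (univ.filter fun i => col (c i) = col v) := by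
          ext i
          simp only [mem_insert, mem_filter, mem_univ, true_and]
          by_cases h : i = j
          · subst h; simp [hcol']
          · rw [hother i h]; simp [h]
        rw [this, card_insert_of_notMem]
        simp only [mem_filter, mem_univ, true_and]
        exact hcol
      have hlt : same col c v < m := by
        have := same_le col c' v
        omega
      have ha : adjc G c' v = 0 := by
        unfold adjc
        rw [card_eq_zero, filter_eq_empty_iff]
        intro i _
        by_cases hij : i = j
        · rw [hij]
          intro h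
          exact hG.bip _ _ h hcol'.symm
        · rw [hother i hij]; exact (hc i).2
      have hb : cnt G c' v ≤ cnt G c v + 1 := by
        unfold cnt
        have : (univ.filter fun i => D2 G v (c' i)) ⊆
            insert j (univ.filter fun i => D2 G v (c i)) := by
          intro i
          simp only [mem_insert, mem_filter, mem_univ, true_and]
          intro h
          by_cases hij : i = j
          · exact Or.inl hij
          · rw [hother i hij] at h; exact Or.inr h
        exact (card_le_card this).trans (card_insert_le _ _)
      obtain ⟨u, hu, hu1, hu2⟩ := robber_move (col := col) hG c' v hne (by rw [ha]; omega)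
      refine ⟨u, hu, fun i => (hu1 i).1, hu1, ?_⟩
      rw [same_adj hG c' hu]
      have g2' := g2 hlt
      have e1 : m - same col c' v = m - same col c v - 1 := by omega
      rw [e1] at hu2 ⊢
      rw [ha] at hu2
      simp only [Nat.sub_zero, zero_add, add_zero] at hu2
      refine hu2.trans (le_trans ?_ g2')
      exact Nat.div_le_div_left (by omega) (by omega)

theorem not_copsWin {G : SimpleGraph V} {col : V → Bool} {d : ℕ} (hG : GoodGraph G col d) {m : ℕ}
    {S : ℕ → ℕ} (hS : Good d m S) (c : Fin m → V) (v : V) (h : CopsWin G c v) :
    ¬ Safe G col S c v := by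
  induction h with
  | capture c c' r hmove i hi =>
    intro hs
    exact (safe_step hG hS c c' r hs hmove).1 i hi
  | trap c c' r hmove h ih =>
    intro hs
    obtain ⟨_, u, hu, hu1, hu2⟩ := safe_step hG hS c c' r hs hmove
    exact ih u (Or.inr hu) hu1 hu2

theorem exists_safe {G : SimpleGraph V} {col : V → Bool} {d : ℕ} (hG : GoodGraph G col d) {m : ℕ}
    {S : ℕ → ℕ} (hS : Good d m S) (hconn : G.Connected) (w0 v0 : V)
    (h0 : w0 ≠ v0 ∧ ¬ G.Adj v0 w0 ∧ ¬ D2 G v0 w0) (c : Fin m → V) : ∃ v, Safe G col S c v := by
  -- moving one cop along a walk keeps existence of a safe vertex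
  have step : ∀ (c : Fin m → V) (j : Fin m) (y : V), G.Reachable (c j) y →
      (∃ v, Safe G col S c v) → ∃ v, Safe G col S (Function.update c j y) v := by
    intro c j y hr
    obtain ⟨p⟩ := hr
    generalize hx : c j = x at p
    induction p generalizing c with
    | nil =>
      intro h
      rw [← hx, Function.update_eq_self]
      exact h
    | @cons a b e hab p ih =>
      intro ⟨v, hv⟩
      have hmove : LazyMove G c (Function.update c j b) := by
        right
        refine ⟨j, ?_, ?_⟩
        · rw [Function.update_self, hx]; exact hab
        · intro i hi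
          rw [Function.update_of_ne hi]
      obtain ⟨_, u, _, _, hu2⟩ := safe_step hG hS c _ v hv hmove
      have := ih (Function.update c j b) (by rw [Function.update_self]) ⟨u, hu2⟩
      rwa [Function.update_idem] at this
  -- start
  have start : ∃ v, Safe G col S (fun _ : Fin m => w0) v := by
    refine ⟨v0, fun i => ⟨h0.1, h0.2.1⟩, ?_⟩
    have : cnt G (fun _ : Fin m => w0) v0 = 0 := by
      unfold cnt
      rw [card_eq_zero, filter_eq_empty_iff]
      intro i _
      exact h0.2.2
    rw [this]
    exact Nat.zero_le _
  -- move the cops one after the other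
  have all : ∀ s : Finset (Fin m), ∃ v, Safe G col S (fun i => if i ∈ s then c i else w0) v := by
    intro s
    induction s using Finset.induction_on with
    | empty => simpa using start
    | insert j s hj ih =>
      have h1 := step _ j (c j) (hconn.preconnected _ _) ih
      have : Function.update (fun i => if i ∈ s then c i else w0) j (c j) =
          fun i => if i ∈ insert j s then c i else w0 := by
        funext i
        by_cases hij : i = j
        · subst hij; simp
        · rw [Function.update_of_ne hij]
          simp [hij]
      rw [this] at h1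
      exact h1
  obtain ⟨v, hv⟩ := all univ
  exact ⟨v, by simpa using hv⟩

theorem not_lazyCopsWin {G : SimpleGraph V} {col : V → Bool} {d : ℕ} (hG : GoodGraph G col d)
    {m : ℕ} {S : ℕ → ℕ} (hS : Good d m S) (hconn : G.Connected) (w0 v0 : V)
    (h0 : w0 ≠ v0 ∧ ¬ G.Adj v0 w0 ∧ ¬ D2 G v0 w0) : ¬ LazyCopsWin G m := by
  rintro ⟨c, hc⟩
  obtain ⟨v, hv⟩ := exists_safe hG hS hconn w0 v0 h0 c
  exact not_copsWin hG hS c v (hc v) hv

end Pool.Agent.W_MP_9f93d5_co
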